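import Mathlib

/-!
# Todd pseudocomplete dense subgroups of products of metrizable groups
-/

set_option autoImplicit false

open Set Topology Filter TopologicalSpace
open scoped Uniformity

namespace Pool.Agent.Results.MP_5e9a16_gt.FactorsComplete

/-- A pseudobase. -/
def IsPseudobase {X : Type*} [TopologicalSpace X] (ℬ : Set (Set X)) : Prop :=
  (∀ B ∈ ℬ, (interior B).Nonempty) ∧ ∀ U : Set X, IsOpen U → U.Nonempty → ∃ B ∈ ℬ, B ⊆ U

/-- Todd pseudocomplete spaces. -/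
def ToddPseudocomplete (X : Type*) [TopologicalSpace X] : Prop :=
  ∃ ℬ : ℕ → Set (Set X), (∀ n, IsPseudobase (ℬ n)) ∧
    ∀ B : ℕ → Set X, (∀ n, B n ∈ ℬ n) → (∀ n, closure (B (n + 1)) ⊆ interior (B n)) →
      (⋂ n, B n).Nonempty

/-- A metrizable group in which every two-sided Cauchy sequence converges is completely
metrizable. -/
theorem completelyMetrizable_of {H : Type*} [Group H] [TopologicalSpace H] [IsTopologicalGroup H]
    [MetrizableSpace H]
    (h : ∀ x : ℕ → H, Tendsto (fun p : ℕ × ℕ => (x p.1)⁻¹ * x p.2) (atTop ×ˢ atTop) (𝓝 1) →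
      Tendsto (fun p : ℕ × ℕ => x p.2 * (x p.1)⁻¹) (atTop ×ˢ atTop) (𝓝 1) →
      ∃ a, Tendsto x atTop (𝓝 a)) : IsCompletelyMetrizableSpace H := by
  let L : UniformSpace H := IsTopologicalGroup.leftUniformSpace H
  let R : UniformSpace H := IsTopologicalGroup.rightUniformSpace H
  have hLc : (@uniformity H L).IsCountablyGenerated := by
    change (comap (fun p : H × H => p.1⁻¹ * p.2) (𝓝 1)).IsCountablyGenerated
    infer_instance
  have hRc : (@uniformity H R).IsCountablyGenerated := by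
    change (comap (fun p : H × H => p.2 * p.1⁻¹) (𝓝 1)).IsCountablyGenerated
    infer_instance
  have htop : (‹TopologicalSpace H› : TopologicalSpace H) = (L ⊓ R).toTopologicalSpace := by
    have e := @UniformSpace.toTopologicalSpace_inf H L R
    exact (e.trans (inf_idem (‹TopologicalSpace H› : TopologicalSpace H))).symm
  let u : UniformSpace H := (L ⊓ R).replaceTopology htop
  have hu : @uniformity H u = @uniformity H L ⊓ @uniformity H R := rfl
  have huc : (@uniformity H u).IsCountablyGenerated := by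
    rw [hu]
    infer_instance
  have hcomp : @CompleteSpace H u := by
    refine @UniformSpace.complete_of_cauchySeq_tendsto H u huc fun x hx => ?_
    have h1 : Tendsto (Prod.map x x) (atTop ×ˢ atTop) (@uniformity H u) := by
      have := (@cauchySeq_iff_tendsto H ℕ u _ _ x).1 hx
      rwa [← prod_atTop_atTop_eq] at this
    rw [hu, tendsto_inf] at h1
    exact h x (tendsto_comap_iff.1 h1.1) (tendsto_comap_iff.1 h1.2)
  exact @IsCompletelyMetrizableSpace.of_completeSpace_metrizable H u hcomp huc inferInstance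

section Game

variable {ι : Type*} {H : ι → Type*} [∀ i, Group (H i)] [∀ i, TopologicalSpace (H i)]
  [∀ i, IsTopologicalGroup (H i)]

/-- Shifting lemma: for a two-sided Cauchy sequence `x` and open sets with `x m • V' ⊆ V`
eventually, there is a small open set `V₁` of `V` with `(x m)⁻¹ • V₁ ⊆ V'` eventually. -/
theorem shift {K : Type*} [Group K] [TopologicalSpace K] [IsTopologicalGroup K] {x : ℕ → K}
    (hx : Tendsto (fun p : ℕ × ℕ => (x p.1)⁻¹ * x p.2) (atTop ×ˢ atTop) (𝓝 1)) {V V' : Set K}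
    (hV : IsOpen V) (hV' : IsOpen V') (hne : V'.Nonempty)
    (hVV : ∀ᶠ m in atTop, ∀ w ∈ V', x m * w ∈ V) :
    ∃ v ∈ V, ∃ O, IsOpen O ∧ v ∈ O ∧ O ⊆ V ∧ ∀ᶠ m in atTop, ∀ w ∈ O, (x m)⁻¹ * w ∈ V' := by
  obtain ⟨w, hw⟩ := hne
  -- neighbourhoods of w and 1
  have h1 : Tendsto (fun p : K × K => p.1 * w * p.2) (𝓝 (1, 1)) (𝓝 (1 * w * 1)) := by
    refine Continuous.tendsto ?_ (1, 1)
    exact (continuous_fst.mul continuous_const).mul continuous_snd
  rw [one_mul, mul_one, nhds_prod_eq] at h1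
  obtain ⟨O1, hO1, O2, hO2, hOO⟩ := Filter.mem_prod_iff.1 (h1 (hV'.mem_nhds hw))
  have h2 : ∀ᶠ p : ℕ × ℕ in atTop ×ˢ atTop, (x p.1)⁻¹ * x p.2 ∈ O1 := hx hO1
  obtain ⟨a, ha, b, hb, hab⟩ := Filter.mem_prod_iff.1 h2
  obtain ⟨l, hl1, hl2⟩ := ((Filter.Eventually.and (p := fun m => m ∈ b) hb hVV)).exists
  have hlV : x l * w ∈ V := hl2 w hw
  let N : Set K := (fun y => (x l * w)⁻¹ * y) ⁻¹' interior O2
  have hN : IsOpen N := isOpen_interior.preimage (continuous_const.mul continuous_id)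
  refine ⟨x l * w, hlV, N ∩ V, hN.inter hV, ⟨?_, hlV⟩, inter_subset_right, ?_⟩
  · change (x l * w)⁻¹ * (x l * w) ∈ interior O2
    rw [inv_mul_cancel]
    exact mem_interior_iff_mem_nhds.2 hO2
  · filter_upwards [ha] with m hm y hy
    have h3 : (x m)⁻¹ * x l ∈ O1 := hab (show (m, l) ∈ a ×ˢ b from ⟨hm, hl1⟩)
    have h4 : (x l * w)⁻¹ * y ∈ O2 := interior_subset hy.1
    have h5 := hOO (show ((x m)⁻¹ * x l, (x l * w)⁻¹ * y) ∈ O1 ×ˢ O2 from ⟨h3, h4⟩)
    have h6 : (x m)⁻¹ * x l * w * ((x l * w)⁻¹ * y) = (x m)⁻¹ * y := by group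
    change (x m)⁻¹ * x l * w * ((x l * w)⁻¹ * y) ∈ V' at h5
    rwa [h6] at h5

omit [∀ i, IsTopologicalGroup (H i)] in
/-- The choice of a member of a pseudobase of the dense subgroup inside an open set of the
product. -/
theorem pick [∀ i, RegularSpace (H i)] {G : Subgroup (∀ i, H i)}
    (hG : Dense (G : Set (∀ i, H i))) {ℬ : Set (Set G)}
    (hB : IsPseudobase ℬ) {W : Set (∀ i, H i)} (hW : IsOpen W) (hne : W.Nonempty) :
    ∃ B ∈ ℬ, ∃ W' : Set (∀ i, H i), IsOpen W' ∧ W'.Nonempty ∧ W' ⊆ W ∧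
      Subtype.val ⁻¹' W' ⊆ interior B ∧ closure B ⊆ Subtype.val ⁻¹' W := by
  obtain ⟨p, hp⟩ := hne
  obtain ⟨C, hC, hCcl, hCW⟩ := exists_mem_nhds_isClosed_subset (hW.mem_nhds hp)
  have h1 : (Subtype.val ⁻¹' interior C : Set G).Nonempty := by
    obtain ⟨q, hq, hqG⟩ := hG.inter_open_nonempty (interior C) isOpen_interior
      ⟨p, mem_interior_iff_mem_nhds.2 hC⟩
    exact ⟨⟨q, hqG⟩, hq⟩
  obtain ⟨B, hB1, hBC⟩ := hB.2 _ (isOpen_interior.preimage continuous_subtype_val) h1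
  obtain ⟨O, hO, hOB⟩ := isOpen_induced_iff.1 (isOpen_interior (s := B))
  obtain ⟨q, hq⟩ := hB.1 B hB1
  have hqO : (q : ∀ i, H i) ∈ O := by
    have : q ∈ (Subtype.val ⁻¹' O : Set G) := by
      rw [hOB]
      exact hq
    exact this
  refine ⟨B, hB1, O ∩ interior C, hO.inter isOpen_interior, ⟨q, hqO, hBC (interior_subset hq)⟩,
    fun r hr => hCW (interior_subset hr.2), ?_, ?_⟩
  · intro r hr
    rw [← hOB]
    exact hr.1
  · refine (closure_minimal (t := Subtype.val ⁻¹' C) (hBC.trans (preimage_mono interior_subset))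
      (hCcl.preimage continuous_subtype_val)).trans (preimage_mono hCW)

end Game

/-- If a dense subgroup `G` of a product of metrizable groups is Todd pseudocomplete then all
factors are completely metrizable. -/
theorem result {ι : Type*} (H : ι → Type*) [∀ i, Group (H i)] [∀ i, TopologicalSpace (H i)]
    [∀ i, IsTopologicalGroup (H i)] [∀ i, MetrizableSpace (H i)] (G : Subgroup (∀ i, H i))
    (hG : Dense (G : Set (∀ i, H i))) (hT : ToddPseudocomplete G) (j : ι) :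
    IsCompletelyMetrizableSpace (H j) := by
  classical
  obtain ⟨ℬ, hB, hcomplete⟩ := hT
  refine completelyMetrizable_of fun x hx1 hx2 => ?_
  let _ : MetricSpace (H j) := metrizableSpaceMetric (H j)
  -- the inverse sequence
  have hx1' : Tendsto (fun p : ℕ × ℕ => (fun n => (x n)⁻¹) p.2 * ((fun n => (x n)⁻¹) p.1)⁻¹)
      (atTop ×ˢ atTop) (𝓝 1) := by
    have h1 : Tendsto (fun p : ℕ × ℕ => (x p.2)⁻¹ * x p.1) (atTop ×ˢ atTop) (𝓝 1) :=
      hx1.comp (tendsto_snd.prodMk tendsto_fst)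
    simpa using h1
  have hx2' : Tendsto (fun p : ℕ × ℕ => ((fun n => (x n)⁻¹) p.1)⁻¹ * (fun n => (x n)⁻¹) p.2)
      (atTop ×ˢ atTop) (𝓝 1) := by
    have h1 : Tendsto (fun p : ℕ × ℕ => x p.1 * (x p.2)⁻¹) (atTop ×ˢ atTop) (𝓝 1) :=
      hx2.comp (tendsto_snd.prodMk tendsto_fst)
    simpa using h1
  -- the states of the game
  let P : ℕ → Set G × Set G × Set (∀ i, H i) × Set (∀ i, H i) → Prop := fun n s =>
    s.1 ∈ ℬ n ∧ s.2.1 ∈ ℬ n ∧ IsOpen s.2.2.1 ∧ IsOpen s.2.2.2 ∧ s.2.2.2.Nonempty ∧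
    Subtype.val ⁻¹' s.2.2.1 ⊆ interior s.1 ∧ Subtype.val ⁻¹' s.2.2.2 ⊆ interior s.2.1 ∧
    ∀ᶠ m in atTop, ∀ w ∈ (fun f : ∀ i, H i => f j) '' s.2.2.2,
      x m * w ∈ (fun f : ∀ i, H i => f j) '' s.2.2.1
  have hopen : ∀ W : Set (∀ i, H i), IsOpen W → IsOpen ((fun f : ∀ i, H i => f j) '' W) :=
    fun W hW => isOpenMap_eval j W hW
  have hstep : ∀ n s, P n s → ∃ s', P (n + 1) s' ∧ closure s'.1 ⊆ interior s.1 ∧
      closure s'.2.1 ⊆ interior s.2.1 ∧ ∀ g ∈ s'.1, ∀ g' ∈ s'.2.1,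
        ∀ᶠ m in atTop, dist (x m * g'.1 j) (g.1 j) < 1 / (n + 1) := by
    rintro n ⟨B, B', W, W'⟩ ⟨h1, h2, h3, h4, h5, h6, h7, h8⟩
    simp only at h1 h2 h3 h4 h5 h6 h7 h8
    obtain ⟨v, hv, O, hO, hvO, hOV, hOx⟩ := shift hx1 (hopen W h3) (hopen W' h4) (h5.image _) h8
    -- shrink the diameter
    let O1 : Set (H j) := O ∩ Metric.ball v (1 / (2 * (n + 1)))
    have hO1 : IsOpen O1 := hO.inter Metric.isOpen_ball
    obtain ⟨f, hf, hfv⟩ := hv
    simp only at hfv
    let W1 : Set (∀ i, H i) := W ∩ (fun f : ∀ i, H i => f j) ⁻¹' O1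
    have hW1 : IsOpen W1 := h3.inter (hO1.preimage (continuous_apply j))
    have hfW1 : f ∈ W1 := by
      refine ⟨hf, ?_, ?_⟩
      · change f j ∈ O
        rw [hfv]
        exact hvO
      · change f j ∈ Metric.ball v _
        rw [hfv]
        exact Metric.mem_ball_self (by positivity)
    obtain ⟨C, hC, W2, hW2, hW2ne, hW21, hW2C, hCcl⟩ := pick hG (hB (n + 1)) hW1 ⟨f, hfW1⟩
    have h9 : ∀ᶠ m in atTop, ∀ w ∈ (fun f : ∀ i, H i => f j) '' W2,
        (x m)⁻¹ * w ∈ (fun f : ∀ i, H i => f j) '' W' := by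
      filter_upwards [hOx] with m hm w hw
      obtain ⟨g, hg, rfl⟩ := hw
      exact hm _ (hW21 hg).2.1
    obtain ⟨v', hv', O', hO', hvO', hOV', hOx'⟩ := shift (x := fun n => (x n)⁻¹) hx2'
      (hopen W' h4) (hopen W2 hW2) (hW2ne.image _) h9
    obtain ⟨f', hf', hfv'⟩ := hv'
    simp only at hfv'
    let W3 : Set (∀ i, H i) := W' ∩ (fun f : ∀ i, H i => f j) ⁻¹' O'
    have hW3 : IsOpen W3 := h4.inter (hO'.preimage (continuous_apply j))
    have hfW3 : f' ∈ W3 := by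
      refine ⟨hf', ?_⟩
      change f' j ∈ O'
      rw [hfv']
      exact hvO'
    obtain ⟨C', hC', W4, hW4, hW4ne, hW43, hW4C, hCcl'⟩ := pick hG (hB (n + 1)) hW3 ⟨f', hfW3⟩
    refine ⟨(C, C', W2, W4), ⟨hC, hC', hW2, hW4, hW4ne, hW2C, hW4C, ?_⟩, ?_, ?_, ?_⟩
    · filter_upwards [hOx'] with m hm w hw
      obtain ⟨g, hg, rfl⟩ := hw
      have := hm _ (hW43 hg).2
      rwa [inv_inv] at this
    · intro g hg
      exact h6 (hCcl hg).1
    · intro g hg
      exact h7 (hCcl' hg).1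
    · intro g hg g' hg'
      have h10 : g.1 j ∈ O1 := (hCcl (subset_closure hg)).2
      have h11 : g'.1 j ∈ O' := (hCcl' (subset_closure hg')).2
      filter_upwards [hOx'] with m hm
      have h12 := hm _ h11
      rw [inv_inv] at h12
      obtain ⟨q, hq, hqe⟩ := h12
      have h13 : x m * g'.1 j ∈ O1 := by
        rw [← hqe]
        exact (hW21 hq).2
      have h14 := Metric.mem_ball.1 h10.2
      have h15 := Metric.mem_ball.1 h13.2
      calc dist (x m * g'.1 j) (g.1 j) ≤ dist (x m * g'.1 j) v + dist (g.1 j) v :=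
            dist_triangle_right _ _ _
        _ < 1 / (2 * (n + 1)) + 1 / (2 * (n + 1)) := add_lt_add h15 h14
        _ = 1 / (n + 1) := by
            field_simp
            norm_num
  have h0 : ∃ s, P 0 s := by
    obtain ⟨B, hB1, W, hW, hWne, -, hWB, -⟩ := pick hG (hB 0) isOpen_univ univ_nonempty
    have h1 : ∀ᶠ m in atTop, ∀ w ∈ (fun f : ∀ i, H i => f j) '' W,
        (x m)⁻¹ * w ∈ (univ : Set (H j)) := Eventually.of_forall fun _ _ _ => trivial
    obtain ⟨v', -, O', hO', hvO', -, hOx'⟩ := shift (x := fun n => (x n)⁻¹) hx2'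
      isOpen_univ (hopen W hW) (hWne.image _) h1
    let W3 : Set (∀ i, H i) := (fun f : ∀ i, H i => f j) ⁻¹' O'
    have hW3 : IsOpen W3 := hO'.preimage (continuous_apply j)
    have hW3ne : W3.Nonempty := ⟨Function.update 1 j v', by
      change Function.update (1 : ∀ i, H i) j v' j ∈ O'
      rw [Function.update_self]
      exact hvO'⟩
    obtain ⟨C', hC', W4, hW4, hW4ne, hW43, hW4C, -⟩ := pick hG (hB 0) hW3 hW3ne
    refine ⟨(B, C', W, W4), hB1, hC', hW, hW4, hW4ne, hWB, hW4C, ?_⟩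
    filter_upwards [hOx'] with m hm w hw
    obtain ⟨g, hg, rfl⟩ := hw
    have := hm _ (hW43 hg)
    rwa [inv_inv] at this
  obtain ⟨s0, hs0⟩ := h0
  choose! next hnext1 hnext2 hnext3 hnext4 using hstep
  let s : ℕ → Set G × Set G × Set (∀ i, H i) × Set (∀ i, H i) :=
    fun n => Nat.rec s0 (fun n t => next n t) n
  have hs : ∀ n, P n (s n) := by
    intro n
    induction n with
    | zero => exact hs0
    | succ n ih => exact hnext1 n _ ih
  obtain ⟨g, hg⟩ := hcomplete (fun n => (s n).1) (fun n => (hs n).1) fun n => hnext2 n _ (hs n)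
  obtain ⟨g', hg'⟩ := hcomplete (fun n => (s n).2.1) (fun n => (hs n).2.1)
    fun n => hnext3 n _ (hs n)
  rw [mem_iInter] at hg hg'
  have hlim : Tendsto (fun m => x m * g'.1 j) atTop (𝓝 (g.1 j)) := by
    rw [Metric.tendsto_nhds]
    intro ε hε
    obtain ⟨n, hn⟩ := exists_nat_one_div_lt hε
    filter_upwards [hnext4 n _ (hs n) g (hg (n + 1)) g' (hg' (n + 1))] with m hm
    exact hm.trans hn
  refine ⟨g.1 j * (g'.1 j)⁻¹, ?_⟩
  have h1 := hlim.mul_const (g'.1 j)⁻¹
  simpa using h1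

end Pool.Agent.Results.MP_5e9a16_gt.FactorsComplete
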